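import Pool.Agent.W175.GF.Stm2

/-!
GF-GTD: the several variable theorem from the one variable theorem, by restriction to a generic
complex line.
-/

set_option autoImplicit false

namespace Pool.Agent.W253.GF

open Complex Pool.Agent.W175.GF Topology

section generic
variable {d : ℕ} {Ω : Set (Fin d → ℂ)}

/-- a generic point -/
theorem exists_generic (hΩo : IsOpen Ω) (hΩp : IsPreconnected Ω) (hΩn : Ω.Nonempty)
    (H : Set ((Fin d → ℂ) → ℂ)) (hH : H.Countable)
    (han : ∀ h ∈ H, AnalyticOnNhd ℂ h Ω) (hne : ∀ h ∈ H, ∃ t ∈ Ω, h t ≠ 0) :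
    ∃ t ∈ Ω, ∀ h ∈ H, h t ≠ 0 := by
  have := hH.to_subtype
  have hd : Dense (⋂ h : H, ({t | t ∈ Ω ∧ h.1 t ≠ 0} ∪ (closure Ω)ᶜ)) := by
    apply dense_iInter_of_isOpen
    · rintro ⟨h, hh⟩
      refine IsOpen.union ?_ isClosed_closure.isOpen_compl
      have h1 : ContinuousOn h Ω := (han h hh).continuousOn
      exact h1.isOpen_inter_preimage hΩo isOpen_ne
    · rintro ⟨h, hh⟩
      rw [dense_iff_inter_open]
      intro O hO hOn
      by_cases hOΩ : (O ∩ Ω).Nonempty
      · by_contra hcon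
        obtain ⟨z, hzO, hzΩ⟩ := hOΩ
        have h2 : ∀ t ∈ O ∩ Ω, h t = 0 := by
          intro t ht
          by_contra hne'
          exact hcon ⟨t, ht.1, Or.inl ⟨ht.2, hne'⟩⟩
        have h3 : h =ᶠ[𝓝 z] 0 := by
          filter_upwards [(hO.inter hΩo).mem_nhds ⟨hzO, hzΩ⟩] with t ht
          exact h2 t ht
        obtain ⟨t, ht, ht0⟩ := hne h hh
        exact ht0 ((han h hh).eqOn_zero_of_preconnected_of_eventuallyEq_zero hΩp hzΩ h3 ht)
      · obtain ⟨z, hz⟩ := hOn
        refine ⟨z, hz, Or.inr ?_⟩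
        intro hzc
        obtain ⟨w, hw⟩ := mem_closure_iff.1 hzc O hO hz
        exact hOΩ ⟨w, hw⟩
  obtain ⟨t, ht1, ht2⟩ := hd.inter_open_nonempty Ω hΩo hΩn
  refine ⟨t, ht1, fun h hh => ?_⟩
  rcases Set.mem_iInter.1 ht2 ⟨h, hh⟩ with h1 | h1
  · exact h1.2
  · exact absurd (subset_closure ht1) h1

theorem poly_ne (hΩo : IsOpen Ω) (hΩn : Ω.Nonempty) (p : MvPolynomial (Fin d) ℂ) (hp : p ≠ 0) :
    ∃ t ∈ Ω, MvPolynomial.eval t p ≠ 0 := by
  by_contra hcon
  push Not at hcon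
  apply hp
  obtain ⟨z, hz⟩ := hΩn
  have h1 : AnalyticOnNhd ℂ (fun t : Fin d → ℂ => MvPolynomial.eval t p) Set.univ :=
    AnalyticOnNhd.eval_mvPolynomial p
  have h2 := h1.eqOn_zero_of_preconnected_of_eventuallyEq_zero isPreconnected_univ
    (Set.mem_univ z) (by
      filter_upwards [hΩo.mem_nhds hz] with t ht
      exact hcon t ht)
  apply MvPolynomial.funext
  intro t
  rw [map_zero]
  exact h2 (Set.mem_univ t)

theorem exists_dir (hΩo : IsOpen Ω) (hΩp : IsPreconnected Ω) {n : ℕ}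
    (y : Fin n → (Fin d → ℂ) → ℂ) (hy : ∀ i, AnalyticOnNhd ℂ (y i) Ω)
    (hnc : ∀ i, ∀ v : ℂ, ¬ ∀ t ∈ Ω, y i t = v) :
    ∃ v : Fin d → ℂ, ∀ i, ∃ t ∈ Ω, fderiv ℂ (y i) t v ≠ 0 := by
  let S : Fin n → Submodule ℂ (Fin d → ℂ) := fun i =>
    { carrier := {v | ∀ t ∈ Ω, fderiv ℂ (y i) t v = 0}
      add_mem' := fun {a b} ha hb t ht => by rw [map_add, ha t ht, hb t ht, add_zero]
      zero_mem' := fun t _ => map_zero _
      smul_mem' := fun c a ha t ht => by rw [map_smul, ha t ht, smul_zero] }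
  by_contra hcon
  push Not at hcon
  have hcov : ⋃ i, (S i : Set (Fin d → ℂ)) = Set.univ := by
    rw [Set.eq_univ_iff_forall]
    intro v
    obtain ⟨i, hi⟩ := hcon v
    exact Set.mem_iUnion.2 ⟨i, hi⟩
  obtain ⟨i, hi⟩ := Subspace.exists_eq_top_of_iUnion_eq_univ hcov
  have h1 : Set.EqOn (fderiv ℂ (y i)) 0 Ω := by
    intro t ht
    ext1 v
    have h2 : v ∈ S i := by rw [hi]; trivial
    exact h2 t ht
  obtain ⟨a, ha⟩ := hΩo.exists_is_const_of_fderiv_eq_zero hΩp (hy i).differentiableOn h1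
  exact hnc i a ha

end generic

/-- restriction of a polynomial to a line -/
noncomputable def res {d : ℕ} (t v : Fin d → ℂ) : MvPolynomial (Fin d) ℂ →ₐ[ℂ] Polynomial ℂ :=
  MvPolynomial.aeval (fun l => Polynomial.C (t l) + Polynomial.C (v l) * Polynomial.X)

theorem eval_res {d : ℕ} (t v : Fin d → ℂ) (p : MvPolynomial (Fin d) ℂ) (u : ℂ) :
    (res t v p).eval u = MvPolynomial.eval (t + u • v) p := by
  have h1 : ((Polynomial.aeval u : Polynomial ℂ →ₐ[ℂ] ℂ).comp (res t v)) =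
      MvPolynomial.aeval (t + u • v) := by
    apply MvPolynomial.algHom_ext
    intro l
    rw [AlgHom.comp_apply, MvPolynomial.aeval_X, res, MvPolynomial.aeval_X,
      Polynomial.coe_aeval_eq_eval, Polynomial.eval_add, Polynomial.eval_C, Polynomial.eval_mul,
      Polynomial.eval_C, Polynomial.eval_X, Pi.add_apply, Pi.smul_apply, smul_eq_mul, mul_comm]
  have h2 := congrArg (fun f => f p) h1
  simp only [AlgHom.comp_apply, Polynomial.coe_aeval_eq_eval] at h2
  exact h2

theorem gtd (hGT : S_GT) : S_GTD := by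
  classical
  intro d n Ω y hΩo hΩp hΩn hy hQ hnc hrel P hP
  by_contra hcon
  push Not at hcon
  -- direction
  obtain ⟨v, hv⟩ := exists_dir hΩo hΩp y hy hnc
  choose Q hQ0 hQe using hQ
  -- a coefficient of `P`
  obtain ⟨k0, hk0⟩ := MvPolynomial.ne_zero_iff.1 hP
  -- coefficients of the `Q i`
  have hq : ∀ i, ∃ m, (Q i).coeff m ≠ 0 := by
    intro i
    by_contra hc
    push Not at hc
    exact hQ0 i (Polynomial.ext (fun m => by rw [hc m, Polynomial.coeff_zero]))
  choose qm hqm using hq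
  -- generic point
  let H : Set ((Fin d → ℂ) → ℂ) :=
    Set.range (fun i : Fin n => fun t => fderiv ℂ (y i) t v) ∪
    (Set.range (fun z : {ij : Fin n × Fin n // ij.1 ≠ ij.2} × ℚ × ℚ => fun t =>
      y z.1.1.1 t - ((z.2.1 : ℂ) * y z.1.1.2 t + (z.2.2 : ℂ))) ∪
    (Set.range (fun z : Fin n × ℕ => fun t => y z.1 t + (z.2 : ℂ)) ∪
    ({fun t => MvPolynomial.eval t (P.coeff k0)} ∪
    Set.range (fun i : Fin n => fun t => MvPolynomial.eval t ((Q i).coeff (qm i))))))
  have hHc : H.Countable :=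
    (Set.countable_range _).union ((Set.countable_range _).union
      ((Set.countable_range _).union ((Set.countable_singleton _).union (Set.countable_range _))))
  have hpoly : ∀ p : MvPolynomial (Fin d) ℂ,
      AnalyticOnNhd ℂ (fun t : Fin d → ℂ => MvPolynomial.eval t p) Ω := fun p =>
    (AnalyticOnNhd.eval_mvPolynomial p).mono (Set.subset_univ _)
  obtain ⟨t0, ht0Ω, ht0⟩ := exists_generic hΩo hΩp hΩn H hHc (by
    rintro h (⟨i, rfl⟩ | ⟨z, rfl⟩ | ⟨z, rfl⟩ | rfl | ⟨i, rfl⟩)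
    · exact (ContinuousLinearMap.apply ℂ ℂ v).comp_analyticOnNhd (hy i).fderiv
    · exact (hy _).sub ((analyticOnNhd_const.mul (hy _)).add analyticOnNhd_const)
    · exact (hy _).add analyticOnNhd_const
    · exact hpoly _
    · exact hpoly _) (by
    rintro h (⟨i, rfl⟩ | ⟨z, rfl⟩ | ⟨z, rfl⟩ | rfl | ⟨i, rfl⟩)
    · exact hv i
    · have h1 := hrel z.1.1.1 z.1.1.2 z.1.2 z.2.1 z.2.2
      push Not at h1
      obtain ⟨t, ht, ht2⟩ := h1
      exact ⟨t, ht, sub_ne_zero.2 ht2⟩
    · have h1 := hnc z.1 (-(z.2 : ℂ))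
      push Not at h1
      obtain ⟨t, ht, ht2⟩ := h1
      exact ⟨t, ht, fun h => ht2 (eq_neg_of_add_eq_zero_left h)⟩
    · exact poly_ne hΩo hΩn _ hk0
    · exact poly_ne hΩo hΩn _ (hqm i))
  have g1 : ∀ i, fderiv ℂ (y i) t0 v ≠ 0 := fun i => ht0 _ (Or.inl ⟨i, rfl⟩)
  have g2 : ∀ i j, i ≠ j → ∀ p q : ℚ, y i t0 ≠ p * y j t0 + q := by
    intro i j hij p q
    have := ht0 _ (Or.inr (Or.inl ⟨(⟨(i, j), hij⟩, p, q), rfl⟩))
    exact sub_ne_zero.1 this
  have g3 : ∀ i, ∀ m : ℕ, y i t0 ≠ -m := by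
    intro i m h
    have := ht0 _ (Or.inr (Or.inr (Or.inl ⟨(i, m), rfl⟩)))
    apply this
    show y i t0 + (m : ℂ) = 0
    rw [h, neg_add_cancel]
  have g4 : MvPolynomial.eval t0 (P.coeff k0) ≠ 0 :=
    ht0 _ (Or.inr (Or.inr (Or.inr (Or.inl rfl))))
  have g5 : ∀ i, MvPolynomial.eval t0 ((Q i).coeff (qm i)) ≠ 0 := fun i =>
    ht0 _ (Or.inr (Or.inr (Or.inr (Or.inr ⟨i, rfl⟩))))
  -- the line
  let ℓ : ℂ → (Fin d → ℂ) := fun u => t0 + u • v
  have hℓ0 : ℓ 0 = t0 := by simp [ℓ]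
  have hℓd : Differentiable ℂ ℓ := by
    intro u
    exact (differentiableAt_id.smul_const v).const_add t0
  have hℓc : Continuous ℓ := hℓd.continuous
  -- the set of non-poles is open
  have hpole : IsClosed {z : ℂ | ∃ m : ℕ, z = -m} := by
    have h1 : {z : ℂ | ∃ m : ℕ, z = -m} = (fun z : ℂ => (Gamma z)⁻¹) ⁻¹' {0} := by
      ext z
      rw [Set.mem_preimage, Set.mem_singleton_iff, inv_eq_zero, Complex.Gamma_eq_zero_iff]
      rfl
    rw [h1]
    exact isClosed_singleton.preimage Complex.differentiable_one_div_Gamma.continuous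
  have hnear : ∀ᶠ u in 𝓝 (0 : ℂ), ℓ u ∈ Ω ∧ ∀ i, ∀ m : ℕ, y i (ℓ u) ≠ -m := by
    have h1 : ∀ᶠ u in 𝓝 (0 : ℂ), ℓ u ∈ Ω :=
      hℓc.continuousAt.preimage_mem_nhds (hΩo.mem_nhds (by rw [hℓ0]; exact ht0Ω))
    have h2 : ∀ i, ∀ᶠ u in 𝓝 (0 : ℂ), ∀ m : ℕ, y i (ℓ u) ≠ -m := by
      intro i
      have h3 : ContinuousAt (fun u => y i (ℓ u)) 0 := by
        have h4 : ContinuousAt (y i) (ℓ 0) := by
          rw [hℓ0]
          exact ((hy i) t0 ht0Ω).continuousAt
        exact ContinuousAt.comp h4 hℓc.continuousAt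
      have h5 : {z : ℂ | ∃ m : ℕ, z = -m}ᶜ ∈ 𝓝 (y i (ℓ 0)) := by
        apply hpole.isOpen_compl.mem_nhds
        rw [hℓ0]
        rintro ⟨m, hm⟩
        exact g3 i m hm
      filter_upwards [h3.preimage_mem_nhds h5] with u hu m hm
      exact hu ⟨m, hm⟩
    filter_upwards [h1, Filter.eventually_all.2 h2] with u h3 h4
    exact ⟨h3, h4⟩
  obtain ⟨r, hr0, hr⟩ := Metric.eventually_nhds_iff_ball.1 hnear
  let B : Set ℂ := Metric.ball 0 r
  have h0B : (0 : ℂ) ∈ B := Metric.mem_ball_self hr0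
  have hBΩ : ∀ u ∈ B, ℓ u ∈ Ω := fun u hu => (hr u hu).1
  have hBp : ∀ u ∈ B, ∀ i, ∀ m : ℕ, y i (ℓ u) ≠ -m := fun u hu => (hr u hu).2
  have hyd : ∀ i, DifferentiableOn ℂ (fun u => y i (ℓ u)) B := by
    intro i u hu
    exact (((hy i) (ℓ u) (hBΩ u hu)).differentiableAt.comp u (hℓd u)).differentiableWithinAt
  -- bound of the exponents
  obtain ⟨M, hM⟩ : ∃ M : ℕ, ∀ κ ∈ P.support, ∀ i, κ i ≤ M := by
    refine ⟨P.support.sup (fun κ => ∑ i, κ i), fun κ hκ i => ?_⟩
    exact (Finset.single_le_sum (fun _ _ => Nat.zero_le _) (Finset.mem_univ i)).trans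
      (Finset.le_sup (f := fun κ : Fin n →₀ ℕ => ∑ i, κ i) hκ)
  let rv : (Fin n →₀ ℕ) → (Fin n → ℕ) := fun κ i => M - κ i
  let bk : (Fin n → ℕ) → (Fin n →₀ ℕ) := fun κ => Finsupp.equivFunOnFinite.symm (fun i => M - κ i)
  have hbk : ∀ κ ∈ P.support, bk (rv κ) = κ := by
    intro κ hκ
    ext i
    have := hM κ hκ i
    show M - (M - κ i) = κ i
    omega
  let c : (Fin n → ℕ) → ℂ → ℂ := fun κ u => MvPolynomial.eval (ℓ u) (P.coeff (bk κ))
  have hcres : ∀ κ u, c κ u = (res t0 v (P.coeff (bk κ))).eval u := fun κ u =>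
    (eval_res t0 v _ u).symm
  have hcd : ∀ κ, Differentiable ℂ (c κ) := by
    intro κ
    have : c κ = fun u => (res t0 v (P.coeff (bk κ))).eval u := funext (hcres κ)
    rw [this]
    exact Polynomial.differentiable _
  have key := hGT (Fin n) B id (fun i u => y i (ℓ u)) (P.support.image rv) c Metric.isOpen_ball
    (convex_ball 0 r).isPreconnected ⟨0, h0B⟩ differentiableOn_id hyd
    (fun κ _ => (hcd κ).differentiableOn) (by
      intro w hw
      have h1 := hw 0 h0B
      have h2 := hw ((r / 2 : ℝ) : ℂ) (by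
        rw [Metric.mem_ball, dist_zero_right, Complex.norm_real, Real.norm_eq_abs,
          abs_of_pos (by linarith)]
        linarith)
      rw [← h1] at h2
      have h3 : ((r / 2 : ℝ) : ℂ) = 0 := h2
      rw [Complex.ofReal_eq_zero] at h3
      linarith) (by
      intro i w hw
      have h1 : HasDerivAt (fun u => y i (ℓ u)) (fderiv ℂ (y i) t0 v) 0 := by
        have h2 : HasFDerivAt (y i) (fderiv ℂ (y i) t0) (ℓ 0) := by
          rw [hℓ0]
          exact ((hy i) t0 ht0Ω).differentiableAt.hasFDerivAt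
        have h3 : HasDerivAt ℓ v 0 := by
          have h := (hasDerivAt_id (0 : ℂ)).smul_const v
          rw [one_smul] at h
          exact h.const_add t0
        exact h2.comp_hasDerivAt 0 h3
      have h4 : (fun u => y i (ℓ u)) =ᶠ[𝓝 0] fun _ => w := by
        filter_upwards [Metric.ball_mem_nhds (0 : ℂ) hr0] with u hu
        exact hw u hu
      have h5 := h4.hasDerivAt_iff.1 h1
      exact g1 i (h5.unique (hasDerivAt_const 0 w))) (by
      intro i
      refine ⟨(Q i).map (res t0 v : MvPolynomial (Fin d) ℂ →+* Polynomial ℂ), ?_, ?_⟩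
      · intro h
        have h1 := congrArg (fun p => Polynomial.coeff p (qm i)) h
        simp only [Polynomial.coeff_map, Polynomial.coeff_zero] at h1
        have h2 := eval_res t0 v ((Q i).coeff (qm i)) 0
        have h3 : res t0 v ((Q i).coeff (qm i)) = 0 := h1
        rw [h3, Polynomial.eval_zero, zero_smul, add_zero] at h2
        exact g5 i h2.symm
      · intro u hu
        have h1 := hQe i (ℓ u) (hBΩ u hu)
        have h2 : Polynomial.map (Polynomial.evalRingHom u)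
            ((Q i).map (res t0 v : MvPolynomial (Fin d) ℂ →+* Polynomial ℂ)) =
            (Q i).map (MvPolynomial.eval (ℓ u)) := by
          rw [Polynomial.map_map]
          congr 1
          apply RingHom.ext
          intro p
          exact eval_res t0 v p u
        rw [← Polynomial.map_evalRingHom_eval]
        show ((Polynomial.map (Polynomial.evalRingHom u)
            ((Q i).map (res t0 v : MvPolynomial (Fin d) ℂ →+* Polynomial ℂ))).eval
              (y i (ℓ u))) = 0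
        rw [h2, h1]) (by
      intro κ _
      refine ⟨Polynomial.X - Polynomial.C (res t0 v (P.coeff (bk κ))), Polynomial.X_sub_C_ne_zero _,
        fun u _ => ?_⟩
      rw [hcres]
      simp [Polynomial.evalEval]) (by
      intro i j hij p q h
      have h1 := h 0 h0B
      simp only [hℓ0] at h1
      exact g2 i j hij p q h1) (by
      intro u hu
      rw [Finset.sum_image]
      · have h1 := hcon (ℓ u) (hBΩ u hu) (hBp u hu)
        rw [MvPolynomial.eval_map, MvPolynomial.eval₂_eq'] at h1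
        have h2 : ∀ κ ∈ P.support, c (rv κ) u * ∏ i, (Gamma (y i (ℓ u)))⁻¹ ^ rv κ i =
            (∏ i, (Gamma (y i (ℓ u)))⁻¹ ^ M) *
              (MvPolynomial.eval (ℓ u) (P.coeff κ) * ∏ i, Gamma (y i (ℓ u)) ^ κ i) := by
          intro κ hκ
          have h3 : c (rv κ) u = MvPolynomial.eval (ℓ u) (P.coeff κ) := by
            show MvPolynomial.eval (ℓ u) (P.coeff (bk (rv κ))) = _
            rw [hbk κ hκ]
          have h4 : ∏ i, (Gamma (y i (ℓ u)))⁻¹ ^ rv κ i =
              (∏ i, (Gamma (y i (ℓ u)))⁻¹ ^ M) * ∏ i, Gamma (y i (ℓ u)) ^ κ i := by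
            rw [← Finset.prod_mul_distrib]
            refine Finset.prod_congr rfl (fun i _ => ?_)
            have h5 : Gamma (y i (ℓ u)) ≠ 0 := Complex.Gamma_ne_zero (hBp u hu i)
            have h6 : M = rv κ i + κ i := by
              have := hM κ hκ i
              show M = M - κ i + κ i
              omega
            conv_rhs => rw [h6, pow_add, mul_assoc, ← mul_pow, inv_mul_cancel₀ h5, one_pow,
              mul_one]
          rw [h3, h4]
          ring
        rw [Finset.sum_congr rfl h2, ← Finset.mul_sum]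
        rw [h1, mul_zero]
      · intro κ hκ κ' hκ' h
        rw [← hbk κ hκ, ← hbk κ' hκ', h])
  have h1 := key (rv k0) (Finset.mem_image_of_mem rv (MvPolynomial.mem_support_iff.2 hk0)) 0 h0B
  apply g4
  have h2 : c (rv k0) 0 = MvPolynomial.eval (ℓ 0) (P.coeff (bk (rv k0))) := rfl
  rw [hbk k0 (MvPolynomial.mem_support_iff.2 hk0), hℓ0] at h2
  rw [← h2]
  exact h1

end Pool.Agent.W253.GF
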